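import Pool.Agent.H1.WavD

namespace Pool.Agent.Results.MP_5e7104_an.Exists

open Filter Topology Set MeasureTheory H1.Wav
open scoped InnerProductSpace

/-- A continuous compactly supported orthogonal scaling function that is cardinal with an offset. -/
theorem result : ∃ (φ : ℝ → ℂ) (e : ℤ → ℤ → Lp ℂ 2 (volume : Measure ℝ)),
    Continuous φ ∧ HasCompactSupport φ ∧
    (∀ j k : ℤ, e j k =ᵐ[volume] fun x : ℝ => ((√(2 ^ j) : ℝ) : ℂ) * φ (2 ^ j * x - k)) ∧
    Orthonormal ℂ (e 0) ∧
    (∃ d : ℕ → ℂ, ∀ t : ℝ, φ (t / 2) = ∑ k ∈ Finset.range 4, d k * φ (t - k)) ∧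
    Monotone (fun j => (Submodule.span ℂ (Set.range (e j))).topologicalClosure) ∧
    Dense (⋃ j, ((Submodule.span ℂ (Set.range (e j))).topologicalClosure :
      Set (Lp ℂ 2 (volume : Measure ℝ)))) ∧
    ⨅ j, (Submodule.span ℂ (Set.range (e j))).topologicalClosure = ⊥ ∧
    ∃ (t₀ : ℝ) (P : ℤ), ∀ k : ℤ, φ (t₀ + k) = if k = P then 1 else 0 := by
  obtain ⟨p, k, t, φ, hc, hs, h, hB, h1, h2, ht, z1, z2⟩ := exφ
  have o := orth hc hs (auto hc hs h hB h1 h2)
  have m : ∀ j n : ℤ, T (w hc hs j n) ∈ Submodule.span ℂ (range (E hc hs j)) := fun j n => by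
    have := Submodule.smul_mem (Submodule.span ℂ (range (E hc hs j))) ((√(2 ^ j) : ℝ) : ℂ)⁻¹
      (Submodule.subset_span ⟨n, rfl⟩)
    rwa [E, inv_smul_smul₀ (Complex.ofReal_ne_zero.2 (by positivity))] at this
  have mo : Monotone fun j => (Submodule.span ℂ (range (E hc hs j))).topologicalClosure :=
    monotone_int_of_le_succ fun j => Submodule.topologicalClosure_mono (Submodule.span_le.2 (by
      rintro _ ⟨n, rfl⟩
      have a0 := m (j + 1) (2 * n)
      have a1 := m (j + 1) (2 * n + 1)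
      have a2 := m (j + 1) (2 * n + 2)
      have a3 := m (j + 1) (2 * n + 3)
      push_cast at a0 a1 a2 a3
      rw [E, ref hc hs h]
      exact Submodule.smul_mem _ _ (sub_mem (add_mem (add_mem (Submodule.smul_mem _ _ a0)
        (Submodule.smul_mem _ _ a1)) (Submodule.smul_mem _ _ a2)) (Submodule.smul_mem _ _ a3))))
  refine ⟨fun x => φ x, E hc hs, Complex.continuous_ofReal.comp hc, ?_, fun j n => ?_, o 0,
    ⟨fun i => (([p, 1 + k, 1 - p, -k].getD i 0 : ℝ) : ℂ), fun t => ?_⟩, mo, ?_,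
    eq_bot_iff.2 fun f hf => triv hc hs hB o (Submodule.mem_iInf _ |>.1 hf), t, 0, fun n => ?_⟩
  · exact .intro (isCompact_Icc (a := 0) (b := 3)) fun x hx => by rw [hs x (by simp at hx; grind)]; rfl
  · filter_upwards [Lp.coeFn_smul ((√(2 ^ j) : ℝ) : ℂ) (T (w hc hs j n)), (mem (w hc hs j n)).coeFn_toLp]
      with x e1 e2
    exact e1.trans (congrArg (_ * ·) e2)
  · beta_reduce
    rw [← congrFun h (t / 2), op, mul_div_cancel₀ _ two_ne_zero]
    simp [Finset.sum_range_succ]; ring
  · rw [← Submodule.coe_iSup_of_directed _ mo.directed_le, Submodule.dense_iff_topologicalClosure_eq_top,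
      Submodule.topologicalClosure_eq_top_iff, eq_bot_iff]
    exact fun f hf => dens hc hs hB fun j n => hf _ (Submodule.mem_iSup_of_mem j
      (Submodule.le_topologicalClosure _ (m j n)))
  · have := (hB t ht).1
    beta_reduce
    rcases lt_trichotomy n 0 with hn | rfl | hn
    · have : (n : ℝ) + 1 ≤ 0 := by exact_mod_cast hn
      rw [hs _ (.inl (by linarith [ht.2])), if_neg hn.ne]; rfl
    · simp [show φ t = 1 by linarith]
    rw [if_neg hn.ne', Complex.ofReal_eq_zero]
    obtain rfl | rfl | h3 : n = 1 ∨ n = 2 ∨ 3 ≤ n := by omega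
    · simpa using z1
    · simpa using z2
    · have : (3 : ℝ) ≤ n := by exact_mod_cast h3
      exact hs _ (.inr (by linarith [ht.1]))

end Pool.Agent.Results.MP_5e7104_an.Exists
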